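import Pool.Agent.Helper38.FRX.Goals
import Pool.Agent.Helper39.FR.COMP

/-!
# Packet FRX-CHP (project FRX, MP_79b960_co)
-/

set_option autoImplicit false

namespace Pool.Agent.Helper71.FRX

open Finset Pool.Agent.Helper55.FR

theorem con_empty {V : Type} (r : V → V → Prop) : Con r (∅ : Finset V) := by
  intro S hS hne _
  exact Finset.subset_empty.1 hS

/-- deleting a component of `S \ {v}` from `W` leaves a connected set -/
theorem con_sdiff {V : Type} [Fintype V] [DecidableEq V] {r : V → V → Prop}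
    (hr : ∀ x y, r x y → r y x) {W S T : Finset V} {Q : Finset (Finset V)} {v : V}
    (hT : T = (univ \ S) ∪ {v}) (hSW : S ⊆ W) (hvS : v ∈ S)
    (hWS : Con r (W \ S)) (hv : (W \ S).Nonempty → ∃ w ∈ W \ S, r v w)
    (hQ : Comps r T Q) (hadj : ∀ K ∈ Q, ∃ x ∈ K, r x v) {K : Finset V} (hK : K ∈ Q) :
    Con r (W \ K) := by
  have hKS : ∀ K ∈ Q, K ⊆ S := by
    intro K hK x hx
    by_contra hxS
    refine Finset.disjoint_left.1 (hQ.dis K hK) (?_ : x ∈ T) hx
    rw [hT]
    simp [hxS]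
  have hvK : ∀ K ∈ Q, v ∉ K := by
    intro K hK hx
    refine Finset.disjoint_left.1 (hQ.dis K hK) (?_ : v ∈ T) hx
    rw [hT]
    simp
  have hvWK : v ∈ W \ K := mem_sdiff.2 ⟨hSW hvS, hvK K hK⟩
  have key : ∀ R ⊆ W \ K, (∀ x ∈ R, ∀ y ∈ W \ K, r x y → y ∈ R) → v ∉ R → R = ∅ := by
    intro R hR hcl hvR
    by_contra hne
    obtain ⟨x, hx⟩ := Finset.nonempty_iff_ne_empty.2 hne
    by_cases hxS : x ∈ S
    · have hxT : x ∉ T := by
        rw [hT]
        simp only [mem_union, mem_sdiff, mem_univ, true_and, mem_singleton, not_or, not_not]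
        exact ⟨hxS, fun h => hvR (h ▸ hx)⟩
      obtain ⟨K', hK', hxK'⟩ := hQ.cov x hxT
      have hne' : K' ≠ K := by
        rintro rfl
        exact (mem_sdiff.1 (hR hx)).2 hxK'
      have hdis := hQ.kK K' hK' K hK hne'
      have hK'W : K' ⊆ W \ K := by
        intro y hy
        exact mem_sdiff.2 ⟨hSW (hKS K' hK' hy), Finset.disjoint_left.1 hdis hy⟩
      have h1 : R ∩ K' = K' := by
        apply hQ.con K' hK' (R ∩ K') inter_subset_right ⟨x, mem_inter.2 ⟨hx, hxK'⟩⟩
        intro a ha b hb hab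
        exact mem_inter.2 ⟨hcl a (mem_inter.1 ha).1 b (hK'W hb) hab, hb⟩
      obtain ⟨u, hu, huv⟩ := hadj K' hK'
      have huR : u ∈ R := by
        rw [← h1] at hu
        exact (mem_inter.1 hu).1
      exact hvR (hcl u huR v hvWK huv)
    · have hxW : x ∈ W \ S := mem_sdiff.2 ⟨(mem_sdiff.1 (hR hx)).1, hxS⟩
      have hWK : W \ S ⊆ W \ K := by
        intro y hy
        exact mem_sdiff.2 ⟨(mem_sdiff.1 hy).1, fun h => (mem_sdiff.1 hy).2 (hKS K hK h)⟩
      have h1 : R ∩ (W \ S) = W \ S := by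
        apply hWS (R ∩ (W \ S)) inter_subset_right ⟨x, mem_inter.2 ⟨hx, hxW⟩⟩
        intro a ha b hb hab
        exact mem_inter.2 ⟨hcl a (mem_inter.1 ha).1 b (hWK hb) hab, hb⟩
      obtain ⟨w, hw, hvw⟩ := hv ⟨x, hxW⟩
      have hwR : w ∈ R := by
        rw [← h1] at hw
        exact (mem_inter.1 hw).1
      exact hvR (hcl w hwR v hvWK (hr _ _ hvw))
  intro R hR hne hcl
  have hvR : v ∈ R := by
    by_contra h
    exact hne.ne_empty (key R hR hcl h)
  have h2 : (W \ K) \ R = ∅ := by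
    apply key _ sdiff_subset
    · intro x hx y hy hxy
      refine mem_sdiff.2 ⟨hy, fun hyR => ?_⟩
      exact (mem_sdiff.1 hx).2 (hcl y hyR x (mem_sdiff.1 hx).1 (hr _ _ hxy))
    · intro h
      exact (mem_sdiff.1 h).2 hvR
  exact Finset.Subset.antisymm hR (sdiff_eq_empty_iff_subset.1 h2)

theorem chp : Pool.Agent.Helper38.FRX.ChpStmt := by
  classical
  intro V _ _ r L W hr hdeg hL hLW hW
  let P : Finset (Finset V) :=
    W.powerset.filter fun S => L ≤ S.card ∧ Con r S ∧ Con r (W \ S)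
  have hP : ∀ S, S ∈ P ↔ S ⊆ W ∧ L ≤ S.card ∧ Con r S ∧ Con r (W \ S) := by
    intro S
    simp only [P, mem_filter, mem_powerset]
  have hne : P.Nonempty := by
    refine ⟨W, (hP W).2 ⟨Finset.Subset.refl _, hLW, hW, ?_⟩⟩
    rw [sdiff_self]
    exact con_empty r
  obtain ⟨S, hS, hmin⟩ := Finset.exists_min_image P Finset.card hne
  obtain ⟨hSW, hLS, hSc, hWS⟩ := (hP S).1 hS
  refine ⟨S, hSW, hLS, ?_, hSc, hWS⟩
  have hSne : S.Nonempty := by
    rw [← Finset.card_pos]
    omega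
  have hvex : ∃ v ∈ S, (W \ S).Nonempty → ∃ w ∈ W \ S, r v w := by
    by_cases h : (W \ S).Nonempty
    · by_contra hcon
      push Not at hcon
      have h1 : S = W := by
        apply hW S hSW hSne
        intro x hx y hy hxy
        by_contra hyS
        exact (hcon x hx).2 y (mem_sdiff.2 ⟨hy, hyS⟩) hxy
      rw [h1, sdiff_self] at h
      exact Finset.not_nonempty_empty h
    · obtain ⟨v, hv⟩ := hSne
      exact ⟨v, hv, fun h' => absurd h' h⟩
  obtain ⟨v, hvS, hv⟩ := hvex
  obtain ⟨Q, hQ⟩ := (Pool.Agent.Helper39.FR.comp V r hr).1 ((univ \ S) ∪ {v})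
  have hKS : ∀ K ∈ Q, K ⊆ S := by
    intro K hK x hx
    by_contra hxS
    refine Finset.disjoint_left.1 (hQ.dis K hK) ?_ hx
    simp [hxS]
  have hvK : ∀ K ∈ Q, v ∉ K := by
    intro K hK hx
    refine Finset.disjoint_left.1 (hQ.dis K hK) ?_ hx
    simp
  have hadj : ∀ K ∈ Q, ∃ x ∈ K, r x v := by
    intro K hK
    by_contra hcon
    push Not at hcon
    have h1 : K = S := by
      apply hSc K (hKS K hK) (hQ.ne K hK)
      intro x hx y hy hxy
      rcases hQ.cl K hK x hx y hxy with h | h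
      · exact h
      · simp only [mem_union, mem_sdiff, mem_univ, true_and, mem_singleton] at h
        rcases h with h | h
        · exact absurd hy h
        · exact absurd (h ▸ hxy) (hcon x hx)
    exact hvK K hK (h1 ▸ hvS)
  have hQ3 : Q.card ≤ 3 := by
    obtain ⟨N, hN3, hN⟩ := hdeg v
    haveI : Nonempty V := ⟨v⟩
    choose! f hf1 hf2 using hadj
    refine le_trans (Finset.card_le_card_of_injOn f (fun K hK => hN _ (hr _ _ (hf2 K hK))) ?_) hN3
    intro K hK K' hK' hff
    by_contra hKK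
    exact Finset.disjoint_left.1 (hQ.kK K hK K' hK' hKK) (hf1 K hK) (hff ▸ hf1 K' hK')
  have hsm : ∀ K ∈ Q, K.card ≤ L - 1 := by
    intro K hK
    by_contra hcon
    have hLK : L ≤ K.card := by omega
    have h1 : K ∈ P := (hP K).2 ⟨(hKS K hK).trans hSW, hLK, hQ.con K hK,
      con_sdiff hr rfl hSW hvS hWS hv hQ hadj hK⟩
    have h2 := hmin K h1
    have h3 : K.card < S.card := Finset.card_lt_card
      ⟨hKS K hK, fun h => hvK K hK (h hvS)⟩
    omega
  have hcov : S ⊆ {v} ∪ Q.biUnion id := by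
    intro x hx
    by_cases hxv : x = v
    · rw [mem_union]
      exact Or.inl (mem_singleton.2 hxv)
    · rw [mem_union]
      right
      obtain ⟨K, hK, hxK⟩ := hQ.cov x (by simp [hx, hxv])
      exact mem_biUnion.2 ⟨K, hK, hxK⟩
  have h4 : (Q.biUnion id).card ≤ Q.card * (L - 1) :=
    Finset.card_biUnion_le_card_mul _ _ _ hsm
  have h5 : S.card ≤ 1 + Q.card * (L - 1) := by
    calc S.card ≤ ({v} ∪ Q.biUnion id : Finset V).card := Finset.card_le_card hcov
      _ ≤ ({v} : Finset V).card + (Q.biUnion id).card := Finset.card_union_le _ _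
      _ ≤ 1 + Q.card * (L - 1) := by
          rw [Finset.card_singleton]
          exact Nat.add_le_add_left h4 1
  have h6 : Q.card * (L - 1) ≤ 3 * (L - 1) := Nat.mul_le_mul_right _ hQ3
  omega

end Pool.Agent.Helper71.FRX
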